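import Mathlib
import Pool.Agent.H325.EN.Defs

/-!
# Project EN (helper325), task EN2: the elements of 2-power order of a nilpotent group form a subgroup
-/

set_option autoImplicit false

open scoped commutatorElement

namespace Pool.Agent.H962.EN

open Pool.Agent.H325.EN

section

variable {Q : Type} [Group Q]

/-- the central elements with `x ^ q = 1` -/
def cen (Q : Type) [Group Q] (q : ℕ) : Subgroup Q where
  carrier := {x | (∀ y, Commute x y) ∧ x ^ q = 1}
  one_mem' := ⟨fun y => Commute.one_left y, one_pow q⟩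
  mul_mem' := fun {a b} ha hb => ⟨fun y => (ha.1 y).mul_left (hb.1 y), by
    rw [(ha.1 b).mul_pow, ha.2, hb.2, one_mul]⟩
  inv_mem' := fun {a} ha => ⟨fun y => (ha.1 y).inv_left, by rw [inv_pow, ha.2, inv_one]⟩

theorem mem_cen {q : ℕ} {x : Q} : x ∈ cen Q q ↔ (∀ y, Commute x y) ∧ x ^ q = 1 := Iff.rfl

/-- powers in the first entry of a central commutator -/
theorem comm_pow {a b : Q} (h : ∀ y, Commute ⁅a, b⁆ y) (n : ℕ) : ⁅a ^ n, b⁆ = ⁅a, b⁆ ^ n := by
  obtain ⟨c, hc⟩ : ∃ c, c = ⁅a, b⁆ := ⟨_, rfl⟩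
  rw [← hc] at h ⊢
  have h1 : a * b * a⁻¹ = c * b := by
    rw [hc, commutatorElement_def]
    group
  have h2 : ∀ n : ℕ, a ^ n * b * (a ^ n)⁻¹ = c ^ n * b := by
    intro n
    induction n with
    | zero => simp
    | succ n ih =>
      have h3 : a ^ (n + 1) * b * (a ^ (n + 1))⁻¹ = a ^ n * (a * b * a⁻¹) * (a ^ n)⁻¹ := by
        rw [pow_succ]
        group
      have h4 : a ^ n * (c * b) * (a ^ n)⁻¹ = c * (a ^ n * b * (a ^ n)⁻¹) := by
        rw [← mul_assoc (a ^ n) c b, ← (h (a ^ n)).eq]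
        group
      rw [h3, h1, h4, ih, ← mul_assoc, pow_succ']
  rw [commutatorElement_def, h2 n, mul_inv_cancel_right]

end

section

variable {H : Type} [Group H]

/-- the step of the induction -/
theorem step (q i : ℕ) (h : ∀ x ∈ Subgroup.lowerCentralSeries (⊤ : Subgroup H) i,
    x ^ q ∈ Subgroup.lowerCentralSeries (⊤ : Subgroup H) (i + 1)) :
    ∀ x ∈ Subgroup.lowerCentralSeries (⊤ : Subgroup H) (i + 1),
      x ^ q ∈ Subgroup.lowerCentralSeries (⊤ : Subgroup H) (i + 2) := by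
  obtain ⟨f, hf⟩ : ∃ f : H →* H ⧸ Subgroup.lowerCentralSeries (⊤ : Subgroup H) (i + 2),
      f = QuotientGroup.mk' _ := ⟨_, rfl⟩
  have hf1 : ∀ x, f x = 1 ↔ x ∈ Subgroup.lowerCentralSeries (⊤ : Subgroup H) (i + 2) := by
    intro x
    rw [hf]
    exact QuotientGroup.eq_one_iff x
  have hfs : ∀ z, ∃ z', f z' = z := by
    intro z
    rw [hf]
    exact QuotientGroup.mk'_surjective _ z
  have h1 : Subgroup.lowerCentralSeries (⊤ : Subgroup H) (i + 1) ≤ (cen _ q).comap f := by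
    rw [Subgroup.lowerCentralSeries_succ, Subgroup.commutator_le]
    intro x hx y _
    rw [Subgroup.mem_comap, mem_cen]
    have h2 : ⁅x, y⁆ ∈ Subgroup.lowerCentralSeries (⊤ : Subgroup H) (i + 1) :=
      Subgroup.commutator_mem_commutator hx (Subgroup.mem_top y)
    have hc : ∀ z, Commute (f ⁅x, y⁆) z := by
      intro z
      obtain ⟨z', rfl⟩ := hfs z
      rw [← commutatorElement_eq_one_iff_commute, ← map_commutatorElement, hf1]
      exact Subgroup.commutator_mem_commutator h2 (Subgroup.mem_top z')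
    refine ⟨hc, ?_⟩
    have h3 : ⁅f x ^ q, f y⁆ = ⁅f x, f y⁆ ^ q := by
      apply comm_pow
      rw [← map_commutatorElement]
      exact hc
    rw [map_commutatorElement, ← h3, ← map_pow, ← map_commutatorElement, hf1]
    exact Subgroup.commutator_mem_commutator (h x hx) (Subgroup.mem_top y)
  intro x hx
  have h2 := (mem_cen.1 (Subgroup.mem_comap.1 (h1 hx))).2
  rwa [← map_pow, hf1] at h2

/-- the beginning of the induction -/
theorem base (q : ℕ) (s : Set H) (hs : Subgroup.closure s = ⊤) (h : ∀ x ∈ s, x ^ q = 1) :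
    ∀ x ∈ Subgroup.lowerCentralSeries (⊤ : Subgroup H) 0,
      x ^ q ∈ Subgroup.lowerCentralSeries (⊤ : Subgroup H) 1 := by
  obtain ⟨f, hf⟩ : ∃ f : H →* H ⧸ Subgroup.lowerCentralSeries (⊤ : Subgroup H) 1,
      f = QuotientGroup.mk' _ := ⟨_, rfl⟩
  have hf1 : ∀ x, f x = 1 ↔ x ∈ Subgroup.lowerCentralSeries (⊤ : Subgroup H) 1 := by
    intro x
    rw [hf]
    exact QuotientGroup.eq_one_iff x
  have hfs : ∀ z, ∃ z', f z' = z := by
    intro z
    rw [hf]
    exact QuotientGroup.mk'_surjective _ z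
  have h1 : Subgroup.closure s ≤ (cen _ q).comap f := by
    rw [Subgroup.closure_le]
    intro x hx
    show x ∈ (cen _ q).comap f
    rw [Subgroup.mem_comap, mem_cen]
    refine ⟨fun z => ?_, by rw [← map_pow, h x hx, map_one]⟩
    obtain ⟨z', rfl⟩ := hfs z
    rw [← commutatorElement_eq_one_iff_commute, ← map_commutatorElement, hf1]
    exact Subgroup.commutator_mem_commutator (Subgroup.mem_top x) (Subgroup.mem_top z')
  intro x _
  have h2 := (mem_cen.1 (Subgroup.mem_comap.1 (h1 (hs ▸ Subgroup.mem_top x)))).2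
  rwa [← map_pow, hf1] at h2

theorem all (q : ℕ) (s : Set H) (hs : Subgroup.closure s = ⊤) (h : ∀ x ∈ s, x ^ q = 1) (i : ℕ) :
    ∀ x ∈ Subgroup.lowerCentralSeries (⊤ : Subgroup H) i,
      x ^ q ∈ Subgroup.lowerCentralSeries (⊤ : Subgroup H) (i + 1) := by
  induction i with
  | zero => exact base q s hs h
  | succ i ih => exact step q i ih

theorem pows (q : ℕ) (s : Set H) (hs : Subgroup.closure s = ⊤) (h : ∀ x ∈ s, x ^ q = 1) (x : H)
    (n : ℕ) : x ^ q ^ n ∈ Subgroup.lowerCentralSeries (⊤ : Subgroup H) n := by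
  induction n with
  | zero => exact Subgroup.mem_top _
  | succ n ih =>
    rw [pow_succ, pow_mul]
    exact all q s hs h n _ ih

end

/-- the product of two elements with `x ^ q = 1` in a nilpotent group -/
theorem two {G : Type} [Group G] (hG : Group.IsNilpotent G) (q : ℕ) (g h : G) (hg : g ^ q = 1)
    (hh : h ^ q = 1) : ∃ c : ℕ, (g * h) ^ q ^ c = 1 := by
  obtain ⟨H, hH⟩ : ∃ H : Subgroup G, H = Subgroup.closure {g, h} := ⟨_, rfl⟩
  have hgH : g ∈ H := by
    rw [hH]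
    exact Subgroup.subset_closure (Or.inl rfl)
  have hhH : h ∈ H := by
    rw [hH]
    exact Subgroup.subset_closure (Or.inr rfl)
  have hn : Group.IsNilpotent H := inferInstance
  obtain ⟨c, hc⟩ := Subgroup.nilpotent_iff_lowerCentralSeries.1 hn
  have hcl : Subgroup.closure ({⟨g, hgH⟩, ⟨h, hhH⟩} : Set H) = ⊤ := by
    rw [eq_top_iff]
    rintro ⟨x, hx⟩ _
    have h1 : H.subtype '' ({⟨g, hgH⟩, ⟨h, hhH⟩} : Set H) = {g, h} := by
      rw [Set.image_pair]
      rfl
    have h2 : x ∈ (Subgroup.closure ({⟨g, hgH⟩, ⟨h, hhH⟩} : Set H)).map H.subtype := by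
      rw [MonoidHom.map_closure, h1, ← hH]
      exact hx
    obtain ⟨y, hy, hyx⟩ := Subgroup.mem_map.1 h2
    have h3 : y = ⟨x, hx⟩ := Subtype.ext hyx
    rwa [h3] at hy
  have h1 := pows q _ hcl (by
    rintro x (rfl | rfl)
    · exact Subtype.ext hg
    · exact Subtype.ext hh) (⟨g, hgH⟩ * ⟨h, hhH⟩) c
  rw [hc, Subgroup.mem_bot] at h1
  exact ⟨c, congrArg Subtype.val h1⟩

theorem tor : S_TOR.{0} := by
  intro G _ hG
  refine ⟨{ carrier := {g | ∃ n : ℕ, g ^ 2 ^ n = 1}
            one_mem' := ⟨0, one_pow _⟩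
            mul_mem' := ?_
            inv_mem' := ?_ }, ⟨?_⟩, fun g => Iff.rfl⟩
  · rintro g h ⟨n, hn⟩ ⟨m, hm⟩
    obtain ⟨c, hc⟩ := two hG (2 ^ (n + m)) g h (by rw [pow_add, pow_mul, hn, one_pow])
      (by rw [add_comm n m, pow_add, pow_mul, hm, one_pow])
    exact ⟨(n + m) * c, by rw [pow_mul 2]; exact hc⟩
  · rintro g ⟨n, hn⟩
    exact ⟨n, by rw [inv_pow, hn, inv_one]⟩
  · rintro g ⟨n, hn⟩ x
    refine ⟨n, ?_⟩
    rw [conj_pow, hn, mul_one, mul_inv_cancel]

end Pool.Agent.H962.EN
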